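import Mathlib

set_option autoImplicit false

namespace Pool.Agent.Results.MP_8173ef_an.Main

open MeasureTheory Filter Topology Set

/-- Lebesgue measure on the unit square `I² = [0,1] × [0,1]`. -/
noncomputable def squareMeasure : Measure (ℝ × ℝ) :=
  volume.restrict (Icc (0 : ℝ) 1 ×ˢ Icc (0 : ℝ) 1)

/-- A double orthonormal system in `L²(I²)` (indices start at `0`). -/
def IsDoubleONS (φ : ℕ → ℕ → ℝ × ℝ → ℝ) : Prop :=
  (∀ i k, MemLp (φ i k) 2 squareMeasure) ∧
  ∀ i k j l, ∫ p, φ i k p * φ j l p ∂squareMeasure = if i = j ∧ k = l then 1 else 0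

/-- The rectangular partial sum over the index rectangle `{0,…,m} × {0,…,n}`. -/
def partialSum (a : ℕ → ℕ → ℝ) (φ : ℕ → ℕ → ℝ × ℝ → ℝ) (m n : ℕ) (p : ℝ × ℝ) : ℝ :=
  ∑ i ∈ Finset.range (m + 1), ∑ k ∈ Finset.range (n + 1), a i k * φ i k p

/-- The system `φ` has growth `lam`: for all square summable coefficients the rectangular partial
sums are `O(√lam_{mn})` almost everywhere. -/
def HasGrowth (φ : ℕ → ℕ → ℝ × ℝ → ℝ) (lam : ℕ → ℕ → ℝ) : Prop :=
  ∀ a : ℕ → ℕ → ℝ, Summable (fun q : ℕ × ℕ => a q.1 q.2 ^ 2) →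
    ∀ᵐ p ∂squareMeasure, ∃ C : ℝ, ∀ m n, |partialSum a φ m n p| ≤ C * √(lam m n)

/-! ### The Haar functions -/

/-- `⌊2^i x⌋`. -/
noncomputable def lev (i : ℕ) (x : ℝ) : ℤ := ⌊(2 : ℝ) ^ i * x⌋

/-- The Haar function of level `i` and position `j`, of `L²` norm one, supported on
`[j/2^i, (j+1)/2^i)`, negative on the left half and positive on the right half. -/
noncomputable def haar (i j : ℕ) (x : ℝ) : ℝ :=
  if lev (i + 1) x = 2 * j + 1 then √(2 ^ i) else if lev (i + 1) x = 2 * j then -√(2 ^ i) else 0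

/-- Lebesgue measure on `[0,1]`. -/
noncomputable def intervalMeasure : Measure ℝ := volume.restrict (Icc (0 : ℝ) 1)

instance : IsProbabilityMeasure intervalMeasure := ⟨by simp [intervalMeasure]⟩

lemma squareMeasure_eq : squareMeasure = intervalMeasure.prod intervalMeasure := by
  rw [squareMeasure, intervalMeasure, Measure.prod_restrict]
  rfl

instance : IsProbabilityMeasure squareMeasure := by
  rw [squareMeasure_eq]; infer_instance

lemma lev_div {i n : ℕ} (h : i ≤ n) (x : ℝ) : lev i x = lev n x / 2 ^ (n - i) := by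
  have : (2 : ℝ) ^ i * x = ((2 : ℝ) ^ n * x) / ((2 ^ (n - i) : ℕ) : ℝ) := by
    rw [eq_div_iff (by positivity)]
    push_cast
    rw [mul_right_comm, ← pow_add, Nat.add_sub_cancel' h]
  rw [lev, this, Int.floor_div_natCast, lev]
  push_cast
  rfl

lemma lev_mul_lt {n : ℕ} {x : ℝ} (h0 : 0 ≤ x) (h1 : x < 1) : 0 ≤ lev n x ∧ lev n x < 2 ^ n := by
  constructor
  · rw [lev, Int.floor_nonneg]; positivity
  · rw [lev, Int.floor_lt]
    push_cast
    have : (0 : ℝ) < 2 ^ n := by positivity
    nlinarith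

lemma measurable_lev (n : ℕ) : Measurable (lev n) :=
  (Int.measurable_floor.comp (measurable_const.mul measurable_id))

lemma measurable_haar (i j : ℕ) : Measurable (haar i j) := by
  unfold haar
  refine Measurable.ite ?_ measurable_const (Measurable.ite ?_ measurable_const measurable_const)
  · exact measurable_lev (i + 1) (measurableSet_singleton _)
  · exact measurable_lev (i + 1) (measurableSet_singleton _)

lemma haar_ne_zero {i j : ℕ} {x : ℝ} (h : haar i j x ≠ 0) : lev i x = j := by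
  rw [lev_div (Nat.le_succ i) x]
  simp only [Nat.succ_eq_add_one, Nat.add_sub_cancel_left, pow_one]
  unfold haar at h
  split_ifs at h with h1 h2
  · omega
  · omega
  · exact absurd rfl h

lemma abs_haar_le (i j : ℕ) (x : ℝ) : |haar i j x| ≤ √(2 ^ i) := by
  unfold haar
  split_ifs
  · rw [abs_of_nonneg (Real.sqrt_nonneg _)]
  · rw [abs_neg, abs_of_nonneg (Real.sqrt_nonneg _)]
  · simp

lemma haar_mul_of_lt {i i' : ℕ} (h : i < i') (j j' : ℕ) :
    ∃ v : ℝ, ∀ x, haar i j x * haar i' j' x = v * haar i' j' x := by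
  refine ⟨if (j' : ℤ) / 2 ^ (i' - (i + 1)) = 2 * j + 1 then √(2 ^ i) else
    if (j' : ℤ) / 2 ^ (i' - (i + 1)) = 2 * j then -√(2 ^ i) else 0, fun x => ?_⟩
  by_cases hx : haar i' j' x = 0
  · simp [hx]
  · have := haar_ne_zero hx
    congr 1
    rw [haar, lev_div h x, this]

lemma preimage_lev (n : ℕ) (l : ℤ) :
    {x | lev n x = l} = Ico ((l : ℝ) / 2 ^ n) ((l + 1) / 2 ^ n) := by
  ext x
  have h2 : (0 : ℝ) < 2 ^ n := by positivity
  simp only [lev, mem_ofPred_eq, Int.floor_eq_iff, mem_Ico, div_le_iff₀ h2, lt_div_iff₀ h2]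
  rw [mul_comm]

lemma measure_lev {n l : ℕ} (hl : l < 2 ^ n) :
    intervalMeasure.real {x | lev n x = (l : ℤ)} = (1 / 2) ^ n := by
  rw [preimage_lev, intervalMeasure, measureReal_restrict_apply measurableSet_Ico]
  have h2 : (0 : ℝ) < 2 ^ n := by positivity
  have : Ico (((l : ℤ) : ℝ) / 2 ^ n) ((((l : ℤ) : ℝ) + 1) / 2 ^ n) ∩ Icc 0 1 =
      Ico (((l : ℤ) : ℝ) / 2 ^ n) ((((l : ℤ) : ℝ) + 1) / 2 ^ n) := by
    rw [inter_eq_left]
    intro x hx
    constructor
    · refine le_trans ?_ hx.1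
      positivity
    · refine hx.2.le.trans ?_
      rw [div_le_one h2]
      have : l + 1 ≤ 2 ^ n := hl
      exact_mod_cast this
  rw [this, Real.volume_real_Ico_of_le (by gcongr; linarith)]
  field_simp
  simp

lemma haar_eq_indicator (i j : ℕ) (x : ℝ) :
    haar i j x = √(2 ^ i) * ({x | lev (i + 1) x = ((2 * j + 1 : ℕ) : ℤ)}.indicator 1 x -
      {x | lev (i + 1) x = ((2 * j : ℕ) : ℤ)}.indicator 1 x) := by
  unfold haar
  simp only [indicator, mem_ofPred_eq, Pi.one_apply]
  push_cast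
  split_ifs with h1 h2 h3
  · omega
  · simp
  · simp
  · simp

lemma measurableSet_lev (n : ℕ) (l : ℤ) : MeasurableSet {x | lev n x = l} :=
  measurable_lev n (measurableSet_singleton _)

lemma integral_haar {i j : ℕ} (hj : j < 2 ^ i) : ∫ x, haar i j x ∂intervalMeasure = 0 := by
  simp only [haar_eq_indicator]
  rw [integral_const_mul, integral_sub]
  · rw [integral_indicator_one (measurableSet_lev _ _), integral_indicator_one
      (measurableSet_lev _ _), measure_lev, measure_lev]
    · simp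
    · rw [pow_succ]; omega
    · rw [pow_succ]; omega
  · exact (integrable_const (1 : ℝ)).indicator (measurableSet_lev _ _)
  · exact (integrable_const (1 : ℝ)).indicator (measurableSet_lev _ _)

lemma haar_sq_eq_indicator (i j : ℕ) (x : ℝ) :
    haar i j x * haar i j x = 2 ^ i * ({x | lev (i + 1) x = ((2 * j + 1 : ℕ) : ℤ)}.indicator 1 x +
      {x | lev (i + 1) x = ((2 * j : ℕ) : ℤ)}.indicator 1 x) := by
  unfold haar
  simp only [indicator, mem_ofPred_eq, Pi.one_apply]
  push_cast
  split_ifs with h1 h2 h3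
  · omega
  · simp
  · simp
  · simp

lemma integral_haar_sq {i j : ℕ} (hj : j < 2 ^ i) :
    ∫ x, haar i j x * haar i j x ∂intervalMeasure = 1 := by
  simp only [haar_sq_eq_indicator]
  rw [integral_const_mul, integral_add]
  · rw [integral_indicator_one (measurableSet_lev _ _), integral_indicator_one
      (measurableSet_lev _ _), measure_lev, measure_lev]
    · rw [pow_succ]
      have : (2 : ℝ) ^ i * (1 / 2) ^ i = 1 := by rw [← mul_pow]; norm_num
      linarith
    · rw [pow_succ]; omega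
    · rw [pow_succ]; omega
  · exact (integrable_const (1 : ℝ)).indicator (measurableSet_lev _ _)
  · exact (integrable_const (1 : ℝ)).indicator (measurableSet_lev _ _)

lemma integral_haar_mul {i j i' j' : ℕ} (hj : j < 2 ^ i) (hj' : j' < 2 ^ i') :
    ∫ x, haar i j x * haar i' j' x ∂intervalMeasure = if i = i' ∧ j = j' then 1 else 0 := by
  rcases lt_trichotomy i i' with h | h | h
  · obtain ⟨v, hv⟩ := haar_mul_of_lt h j j'
    simp only [hv]
    rw [integral_const_mul, integral_haar hj', if_neg (by omega)]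
    simp
  · subst h
    by_cases hjj : j = j'
    · subst hjj
      rw [integral_haar_sq hj]; simp
    · have : ∀ x, haar i j x * haar i j' x = 0 := by
        intro x
        by_contra hne
        have h1 := haar_ne_zero (left_ne_zero_of_mul hne)
        have h2 := haar_ne_zero (right_ne_zero_of_mul hne)
        omega
      simp [this, hjj]
  · obtain ⟨v, hv⟩ := haar_mul_of_lt h j' j
    have : ∀ x, haar i j x * haar i' j' x = v * haar i j x := fun x => by rw [mul_comm, hv]
    simp only [this]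
    rw [integral_const_mul, integral_haar hj, if_neg (by omega)]
    simp

/-! ### Blocks of rows and of columns -/

/-- The block number of `i` with respect to the strictly increasing sequence `f`: the `b` with
`f b ≤ i < f (b+1)`. -/
def grp (f : ℕ → ℕ) (i : ℕ) : ℕ := Nat.findGreatest (fun b => f b ≤ i) i

lemma grp_le {f : ℕ → ℕ} (h0 : f 0 = 0) (i : ℕ) : f (grp f i) ≤ i :=
  Nat.findGreatest_spec (P := fun b => f b ≤ i) (Nat.zero_le i) (by rw [h0]; exact Nat.zero_le _)

lemma lt_grp {f : ℕ → ℕ} (hf : StrictMono f) (i : ℕ) : i < f (grp f i + 1) := by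
  by_cases h : grp f i + 1 ≤ i
  · have := Nat.findGreatest_is_greatest (P := fun b => f b ≤ i) (Nat.lt_succ_self _) h
    exact not_le.1 this
  · exact lt_of_lt_of_le (not_le.1 h) (hf.id_le _)

lemma grp_eq {f : ℕ → ℕ} (hf : StrictMono f) (h0 : f 0 = 0) {b i : ℕ} (h1 : f b ≤ i)
    (h2 : i < f (b + 1)) : grp f i = b := by
  have h3 := grp_le (f := f) h0 i
  have h4 := lt_grp hf i
  have h5 : b < grp f i + 1 := hf.lt_iff_lt.1 (lt_of_le_of_lt h1 h4)
  have h6 : grp f i < b + 1 := hf.lt_iff_lt.1 (lt_of_le_of_lt h3 h2)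
  omega

lemma grp_mono (f : ℕ → ℕ) : Monotone (grp f) := by
  intro i j hij
  exact (Nat.findGreatest_mono_left (fun b hb => hb.trans hij) i).trans
    (Nat.findGreatest_mono_right _ hij)

lemma exists_block (n : ℕ) (B : ℝ) :
    ∃ m, n < m ∧ B ≤ ∑ i ∈ Finset.Ico n m, (1 : ℝ) / ((i : ℝ) + 1) := by
  have h := Real.tendsto_sum_range_one_div_nat_succ_atTop
  obtain ⟨m, hm, hm2⟩ := ((h.eventually_ge_atTop
    (B + ∑ i ∈ Finset.range n, (1 : ℝ) / ((i : ℝ) + 1))).and (eventually_gt_atTop n)).exists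
  refine ⟨m, hm2, ?_⟩
  rw [Finset.sum_Ico_eq_sub _ hm2.le]
  linarith

/-- The row blocks: block `b` is `[R b, R (b+1))`. -/
noncomputable def R : ℕ → ℕ
  | 0 => 0
  | b + 1 => (exists_block (R b) (4 ^ b)).choose

lemma R_lt (b : ℕ) : R b < R (b + 1) := (exists_block (R b) (4 ^ b)).choose_spec.1

lemma R_strictMono : StrictMono R := strictMono_nat_of_lt_succ R_lt

/-- The harmonic sum over a block of rows. -/
noncomputable def H (b : ℕ) : ℝ := ∑ i ∈ Finset.Ico (R b) (R (b + 1)), (1 : ℝ) / ((i : ℝ) + 1)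

lemma le_H (b : ℕ) : 4 ^ b ≤ H b := (exists_block (R b) (4 ^ b)).choose_spec.2

lemma H_pos (b : ℕ) : 0 < H b := lt_of_lt_of_le (by positivity) (le_H b)

/-- The column blocks: block `b` is `[K b, K (b+1))`. -/
noncomputable def K : ℕ → ℕ
  | 0 => 0
  | b + 1 => K b + 2 ^ R (b + 1)

lemma K_succ (b : ℕ) : K (b + 1) = K b + 2 ^ R (b + 1) := rfl

lemma K_strictMono : StrictMono K :=
  strictMono_nat_of_lt_succ fun b => by rw [K_succ]; exact Nat.lt_add_of_pos_right (by positivity)

/-- The block of row `i`. -/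
noncomputable def blk (i : ℕ) : ℕ := grp R i

lemma R_blk_le (i : ℕ) : R (blk i) ≤ i := grp_le rfl i

lemma lt_R_blk (i : ℕ) : i < R (blk i + 1) := lt_grp R_strictMono i

lemma blk_eq {b i : ℕ} (h : i ∈ Finset.Ico (R b) (R (b + 1))) : blk i = b := by
  rw [Finset.mem_Ico] at h
  exact grp_eq R_strictMono rfl h.1 h.2

/-- The column in which the Haar function `haar i j` is placed in row `i`. -/
noncomputable def col (i j : ℕ) : ℕ :=
  K (blk i) + (2 * j + 1) * 2 ^ (R (blk i + 1) - (i + 1))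

lemma col_injective {i j j' : ℕ} (h : col i j = col i j') : j = j' := by
  unfold col at h
  have h2 : (2 * j + 1) * 2 ^ (R (blk i + 1) - (i + 1)) =
      (2 * j' + 1) * 2 ^ (R (blk i + 1) - (i + 1)) := by omega
  have := Nat.eq_of_mul_eq_mul_right (by positivity) h2
  omega

lemma col_lt {i j : ℕ} (hj : j < 2 ^ i) : col i j < K (blk i + 1) := by
  rw [K_succ, col]
  have h1 : 2 * j + 1 < 2 ^ (i + 1) := by rw [pow_succ]; omega
  have h2 : (2 : ℕ) ^ R (blk i + 1) = 2 ^ (i + 1) * 2 ^ (R (blk i + 1) - (i + 1)) := by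
    rw [← pow_add, Nat.add_sub_cancel' (lt_R_blk i)]
  rw [h2]
  have : (2 * j + 1) * 2 ^ (R (blk i + 1) - (i + 1)) <
      2 ^ (i + 1) * 2 ^ (R (blk i + 1) - (i + 1)) :=
    Nat.mul_lt_mul_of_pos_right h1 (by positivity)
  omega

lemma grp_K_col {i j : ℕ} (hj : j < 2 ^ i) : grp K (col i j) = blk i :=
  grp_eq K_strictMono rfl (Nat.le_add_right _ _) (col_lt hj)

/-- Amplitude attached to row `i`. -/
noncomputable def amp (i : ℕ) : ℝ := 1 / (((i : ℝ) + 1) * H (blk i))

lemma amp_nonneg (i : ℕ) : 0 ≤ amp i := by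
  unfold amp
  have := H_pos (blk i)
  positivity

lemma sum_amp (b : ℕ) : ∑ i ∈ Finset.Ico (R b) (R (b + 1)), amp i = 1 := by
  have : ∀ i ∈ Finset.Ico (R b) (R (b + 1)), amp i = (1 / ((i : ℝ) + 1)) * (1 / H b) := by
    intro i hi
    rw [amp, blk_eq hi, one_div_mul_one_div]
  rw [Finset.sum_congr rfl this, ← Finset.sum_mul]
  change H b * (1 / H b) = 1
  rw [mul_one_div_cancel (H_pos b).ne']

/-- Position `(i,k)` carries a Haar function. -/
def IsSlot (i k : ℕ) : Prop := ∃ j, j < 2 ^ i ∧ k = col i j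

open Classical in
/-- The double system. -/
noncomputable def phi (i k : ℕ) (p : ℝ × ℝ) : ℝ :=
  if h : IsSlot i k then haar i h.choose p.1 else haar (Nat.pair i k + 1) 1 p.2

open Classical in
/-- The coefficients. -/
noncomputable def coef (i k : ℕ) : ℝ := if IsSlot i k then amp i / √(2 ^ i) else 0

/-- The weights `λ_{ik}`. -/
noncomputable def lam (i k : ℕ) : ℝ := ((i : ℝ) + 1) * ((grp K k : ℝ) + 1)

lemma phi_slot {i j : ℕ} (hj : j < 2 ^ i) (p : ℝ × ℝ) : phi i (col i j) p = haar i j p.1 := by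
  have h : IsSlot i (col i j) := ⟨j, hj, rfl⟩
  rw [phi, dif_pos h]
  congr 1
  exact (col_injective h.choose_spec.2).symm

lemma phi_not_slot {i k : ℕ} (h : ¬ IsSlot i k) (p : ℝ × ℝ) :
    phi i k p = haar (Nat.pair i k + 1) 1 p.2 := by
  rw [phi, dif_neg h]

lemma one_lt_two_pow_succ (l : ℕ) : 1 < 2 ^ (l + 1) := Nat.one_lt_two_pow (by omega)

lemma integral_phi_mul (i k j l : ℕ) :
    ∫ p, phi i k p * phi j l p ∂squareMeasure = if i = j ∧ k = l then 1 else 0 := by
  rw [squareMeasure_eq]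
  by_cases h1 : IsSlot i k
  · obtain ⟨u, hu, rfl⟩ := h1
    simp only [phi_slot hu]
    by_cases h2 : IsSlot j l
    · obtain ⟨v, hv, rfl⟩ := h2
      simp only [phi_slot hv]
      have := integral_prod_mul (μ := intervalMeasure) (ν := intervalMeasure)
        (fun x => haar i u x * haar j v x) (fun _ => (1 : ℝ))
      simp only [mul_one] at this
      rw [this, integral_haar_mul hu hv]
      simp only [integral_const, probReal_univ, smul_eq_mul, mul_one]
      by_cases hij : i = j
      · subst hij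
        by_cases huv : u = v
        · simp [huv]
        · have : col i u ≠ col i v := fun h => huv (col_injective h)
          simp [huv, this]
      · simp [hij]
    · simp only [phi_not_slot h2]
      rw [integral_prod_mul (μ := intervalMeasure) (ν := intervalMeasure)
        (fun x => haar i u x) (fun y => haar (Nat.pair j l + 1) 1 y), integral_haar hu, zero_mul,
        if_neg]
      rintro ⟨rfl, rfl⟩
      exact h2 ⟨u, hu, rfl⟩
  · simp only [phi_not_slot h1]
    by_cases h2 : IsSlot j l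
    · obtain ⟨v, hv, rfl⟩ := h2
      simp only [phi_slot hv]
      have := integral_prod_mul (μ := intervalMeasure) (ν := intervalMeasure)
        (fun x => haar j v x) (fun y => haar (Nat.pair i k + 1) 1 y)
      simp only [mul_comm (haar (Nat.pair i k + 1) 1 _)]
      rw [this, integral_haar hv, zero_mul, if_neg]
      rintro ⟨rfl, rfl⟩
      exact h1 ⟨v, hv, rfl⟩
    · simp only [phi_not_slot h2]
      have := integral_prod_mul (μ := intervalMeasure) (ν := intervalMeasure)
        (fun _ => (1 : ℝ)) (fun y => haar (Nat.pair i k + 1) 1 y * haar (Nat.pair j l + 1) 1 y)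
      simp only [one_mul] at this
      rw [this, integral_haar_mul (one_lt_two_pow_succ _) (one_lt_two_pow_succ _)]
      simp only [integral_const, probReal_univ, smul_eq_mul, mul_one, one_mul, and_true,
        add_left_inj, Nat.pair_eq_pair]

lemma measurable_phi (i k : ℕ) : Measurable (phi i k) := by
  by_cases h : IsSlot i k
  · obtain ⟨j, hj, rfl⟩ := h
    have : phi i (col i j) = fun p => haar i j p.1 := funext fun p => phi_slot hj p
    rw [this]
    exact (measurable_haar i j).comp measurable_fst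
  · have : phi i k = fun p => haar (Nat.pair i k + 1) 1 p.2 := funext fun p => phi_not_slot h p
    rw [this]
    exact (measurable_haar _ _).comp measurable_snd

lemma phi_bound (i k : ℕ) : ∃ C, ∀ p, ‖phi i k p‖ ≤ C := by
  by_cases h : IsSlot i k
  · obtain ⟨j, hj, rfl⟩ := h
    exact ⟨_, fun p => by rw [phi_slot hj, Real.norm_eq_abs]; exact abs_haar_le _ _ _⟩
  · exact ⟨_, fun p => by rw [phi_not_slot h, Real.norm_eq_abs]; exact abs_haar_le _ _ _⟩

lemma memLp_phi (i k : ℕ) : MemLp (phi i k) 2 squareMeasure := by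
  obtain ⟨C, hC⟩ := phi_bound i k
  exact MemLp.of_bound (measurable_phi i k).aestronglyMeasurable C (Eventually.of_forall hC)

lemma isDoubleONS_phi : IsDoubleONS phi := ⟨memLp_phi, integral_phi_mul⟩

/-! ### Growth -/

/-- At a given point and in a given row, at most two functions of the system do not vanish. -/
lemma card_ne_zero_le (i n : ℕ) (p : ℝ × ℝ) :
    ((Finset.range n).filter fun k => phi i k p ≠ 0).card ≤ 2 := by
  classical
  have h1 : (((Finset.range n).filter fun k => phi i k p ≠ 0).filter (IsSlot i)).card ≤ 1 := by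
    rw [Finset.card_le_one]
    intro k hk k' hk'
    simp only [Finset.mem_filter] at hk hk'
    obtain ⟨⟨_, hk1⟩, u, hu, rfl⟩ := hk
    obtain ⟨⟨_, hk1'⟩, v, hv, rfl⟩ := hk'
    rw [phi_slot hu] at hk1
    rw [phi_slot hv] at hk1'
    have e1 := haar_ne_zero hk1
    have e2 := haar_ne_zero hk1'
    have : u = v := by exact_mod_cast (e1.symm.trans e2)
    rw [this]
  have h2 : (((Finset.range n).filter fun k => phi i k p ≠ 0).filter
      (fun k => ¬ IsSlot i k)).card ≤ 1 := by
    rw [Finset.card_le_one]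
    intro k hk k' hk'
    simp only [Finset.mem_filter] at hk hk'
    obtain ⟨⟨_, hk1⟩, hs⟩ := hk
    obtain ⟨⟨_, hk1'⟩, hs'⟩ := hk'
    rw [phi_not_slot hs] at hk1
    rw [phi_not_slot hs'] at hk1'
    have e1 := haar_ne_zero hk1
    have e2 := haar_ne_zero hk1'
    -- two different levels cannot both have `lev = 1`
    have key : ∀ l l' : ℕ, l < l' → lev l p.2 = 1 → lev l' p.2 = 1 → False := by
      intro l l' hll h h'
      rw [lev_div hll.le, h'] at h
      have : (1 : ℤ) / 2 ^ (l' - l) = 0 :=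
        Int.ediv_eq_zero_of_lt (by norm_num) (by
          have : 1 < 2 ^ (l' - l) := Nat.one_lt_two_pow (by omega)
          exact_mod_cast this)
      omega
    rcases lt_trichotomy (Nat.pair i k + 1) (Nat.pair i k' + 1) with h | h | h
    · exact (key _ _ h (by simpa using e1) (by simpa using e2)).elim
    · simpa using h
    · exact (key _ _ h (by simpa using e2) (by simpa using e1)).elim
  have := Finset.card_filter_add_card_filter_not
    (s := (Finset.range n).filter fun k => phi i k p ≠ 0) (IsSlot i)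
  omega

lemma partialSum_sq_le (a : ℕ → ℕ → ℝ) (p : ℝ × ℝ)
    (hs : Summable fun q : ℕ × ℕ => (a q.1 q.2 * phi q.1 q.2 p) ^ 2) (m n : ℕ) :
    partialSum a phi m n p ^ 2 ≤
      (2 * ((m : ℝ) + 1)) * ∑' q : ℕ × ℕ, (a q.1 q.2 * phi q.1 q.2 p) ^ 2 := by
  classical
  set T := ((Finset.range (m + 1)) ×ˢ (Finset.range (n + 1))).filter
    fun q : ℕ × ℕ => phi q.1 q.2 p ≠ 0 with hT
  have h1 : partialSum a phi m n p = ∑ q ∈ T, a q.1 q.2 * phi q.1 q.2 p := by
    rw [partialSum, ← Finset.sum_product', hT, Finset.sum_filter]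
    refine Finset.sum_congr rfl fun q _ => ?_
    split_ifs with h
    · rfl
    · rw [not_not] at h
      rw [h, mul_zero]
  have h2 : (T.card : ℝ) ≤ 2 * ((m : ℝ) + 1) := by
    have : T.card ≤ (m + 1) * 2 := by
      have hc : T.card = ∑ i ∈ Finset.range (m + 1),
          ((Finset.range (n + 1)).filter fun k => phi i k p ≠ 0).card := by
        rw [hT, Finset.card_filter, Finset.sum_product]
        refine Finset.sum_congr rfl fun i _ => ?_
        rw [Finset.card_filter]
      rw [hc]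
      calc _ ≤ ∑ i ∈ Finset.range (m + 1), 2 := Finset.sum_le_sum fun i _ => card_ne_zero_le i _ p
        _ = _ := by simp
    have h3 : (T.card : ℝ) ≤ (((m + 1) * 2 : ℕ) : ℝ) := by exact_mod_cast this
    refine h3.trans (le_of_eq ?_)
    push_cast
    ring
  rw [h1]
  calc (∑ q ∈ T, a q.1 q.2 * phi q.1 q.2 p) ^ 2
      ≤ T.card * ∑ q ∈ T, (a q.1 q.2 * phi q.1 q.2 p) ^ 2 := sq_sum_le_card_mul_sum_sq
    _ ≤ (2 * ((m : ℝ) + 1)) * ∑' q : ℕ × ℕ, (a q.1 q.2 * phi q.1 q.2 p) ^ 2 := by
        refine mul_le_mul h2 (hs.sum_le_tsum _ fun _ _ => sq_nonneg _)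
          (Finset.sum_nonneg fun _ _ => sq_nonneg _) (by positivity)

lemma ae_summable (a : ℕ → ℕ → ℝ) (ha : Summable fun q : ℕ × ℕ => a q.1 q.2 ^ 2) :
    ∀ᵐ p ∂squareMeasure, Summable fun q : ℕ × ℕ => (a q.1 q.2 * phi q.1 q.2 p) ^ 2 := by
  have hmeas : ∀ q : ℕ × ℕ, Measurable fun p => ENNReal.ofReal ((a q.1 q.2 * phi q.1 q.2 p) ^ 2) :=
    fun q => (((measurable_phi q.1 q.2).const_mul _).pow_const 2).ennreal_ofReal
  have hint : ∀ q : ℕ × ℕ, ∫⁻ p, ENNReal.ofReal ((a q.1 q.2 * phi q.1 q.2 p) ^ 2) ∂squareMeasure =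
      ENNReal.ofReal (a q.1 q.2 ^ 2) := by
    intro q
    have hI : Integrable (fun p => (a q.1 q.2 * phi q.1 q.2 p) ^ 2) squareMeasure := by
      have := ((memLp_phi q.1 q.2).const_mul (a q.1 q.2)).integrable_sq
      exact this
    rw [← ofReal_integral_eq_lintegral_ofReal hI (Eventually.of_forall fun _ => sq_nonneg _)]
    congr 1
    have : ∀ p, (a q.1 q.2 * phi q.1 q.2 p) ^ 2 =
        a q.1 q.2 ^ 2 * (phi q.1 q.2 p * phi q.1 q.2 p) := fun p => by ring
    simp only [this]
    rw [integral_const_mul, integral_phi_mul]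
    simp
  have hsum : ∫⁻ p, ∑' q : ℕ × ℕ, ENNReal.ofReal ((a q.1 q.2 * phi q.1 q.2 p) ^ 2)
      ∂squareMeasure ≠ ⊤ := by
    rw [lintegral_tsum fun q => (hmeas q).aemeasurable]
    simp only [hint]
    rw [← ENNReal.ofReal_tsum_of_nonneg (fun _ => sq_nonneg _) ha]
    exact ENNReal.ofReal_ne_top
  have hae := ae_lt_top (Measurable.tsum hmeas) hsum
  filter_upwards [hae] with p hp
  have h1 : Summable fun q : ℕ × ℕ =>
      (ENNReal.ofReal ((a q.1 q.2 * phi q.1 q.2 p) ^ 2)).toReal :=
    ENNReal.summable_toReal hp.ne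
  refine h1.congr fun q => ?_
  rw [ENNReal.toReal_ofReal (sq_nonneg _)]

lemma lam_ge (m n : ℕ) : (m : ℝ) + 1 ≤ lam m n := by
  unfold lam
  have : (0 : ℝ) ≤ (grp K n : ℝ) := Nat.cast_nonneg _
  have : (0 : ℝ) ≤ (m : ℝ) := Nat.cast_nonneg _
  nlinarith

lemma hasGrowth_phi : HasGrowth phi lam := by
  intro a ha
  filter_upwards [ae_summable a ha] with p hp
  refine ⟨√(2 * ∑' q : ℕ × ℕ, (a q.1 q.2 * phi q.1 q.2 p) ^ 2), fun m n => ?_⟩
  rw [← Real.sqrt_mul (mul_nonneg zero_le_two (tsum_nonneg fun _ => sq_nonneg _))]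
  refine Real.abs_le_sqrt ((partialSum_sq_le a p hp m n).trans ?_)
  have h1 : (0 : ℝ) ≤ ∑' q : ℕ × ℕ, (a q.1 q.2 * phi q.1 q.2 p) ^ 2 :=
    tsum_nonneg fun _ => sq_nonneg _
  have h2 := lam_ge m n
  nlinarith

/-! ### The weights -/

lemma lam_pos (i k : ℕ) : 0 < lam i k := by unfold lam; positivity

lemma tendsto_grp {f : ℕ → ℕ} (hf : StrictMono f) (h0 : f 0 = 0) :
    Tendsto (grp f) atTop atTop := by
  refine tendsto_atTop_atTop_of_monotone (grp_mono f) fun b => ⟨f b, ?_⟩
  rw [grp_eq hf h0 le_rfl (hf (Nat.lt_succ_self b))]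

lemma lam_mono_left (i k : ℕ) : lam i k ≤ lam (i + 1) k := by
  unfold lam
  push_cast
  have : (0 : ℝ) ≤ (grp K k : ℝ) := Nat.cast_nonneg _
  nlinarith

lemma lam_mono_right (i k : ℕ) : lam i k ≤ lam i (k + 1) := by
  unfold lam
  have : (grp K k : ℝ) ≤ (grp K (k + 1) : ℝ) := by exact_mod_cast grp_mono K (Nat.le_succ k)
  have : (0 : ℝ) ≤ (i : ℝ) := Nat.cast_nonneg _
  nlinarith

lemma lam_delta (i k : ℕ) : 0 ≤ lam (i + 1) (k + 1) - lam (i + 1) k - lam i (k + 1) + lam i k := by
  unfold lam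
  push_cast
  have : (grp K k : ℝ) ≤ (grp K (k + 1) : ℝ) := by exact_mod_cast grp_mono K (Nat.le_succ k)
  nlinarith

lemma tendsto_lam_row (i : ℕ) : Tendsto (fun k => lam i k) atTop atTop := by
  unfold lam
  refine Tendsto.const_mul_atTop (by positivity) ?_
  refine tendsto_atTop_add_const_right _ _ ?_
  exact tendsto_natCast_atTop_atTop.comp (tendsto_grp K_strictMono rfl)

lemma tendsto_lam_col (k : ℕ) : Tendsto (fun i => lam i k) atTop atTop := by
  unfold lam
  refine Tendsto.atTop_mul_const (by positivity) ?_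
  exact tendsto_atTop_add_const_right _ _ tendsto_natCast_atTop_atTop

/-! ### Summability of the weighted coefficients -/

lemma summable_coef : Summable fun q : ℕ × ℕ => coef q.1 q.2 ^ 2 * lam q.1 q.2 := by
  classical
  -- weight of row `i`
  let w : ℕ → ℝ := fun i => amp i ^ 2 * (((i : ℝ) + 1) * ((blk i : ℝ) + 1))
  have hrow : ∀ i, HasSum (fun k => coef i k ^ 2 * lam i k) (w i) := by
    intro i
    have h1 : ∀ k ∉ (Finset.range (2 ^ i)).image (col i), coef i k ^ 2 * lam i k = 0 := by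
      intro k hk
      have : ¬ IsSlot i k := by
        rintro ⟨j, hj, rfl⟩
        exact hk (Finset.mem_image_of_mem _ (Finset.mem_range.2 hj))
      simp [coef, this]
    have h2 : HasSum (fun k => coef i k ^ 2 * lam i k)
        (∑ k ∈ (Finset.range (2 ^ i)).image (col i), coef i k ^ 2 * lam i k) :=
      hasSum_sum_of_ne_finset_zero h1
    convert h2 using 1
    rw [Finset.sum_image (fun u _ v _ h => col_injective h)]
    have h3 : ∀ j ∈ Finset.range (2 ^ i), coef i (col i j) ^ 2 * lam i (col i j) =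
        w i / 2 ^ i := by
      intro j hj
      have hj' := Finset.mem_range.1 hj
      have hs : IsSlot i (col i j) := ⟨j, hj', rfl⟩
      simp only [coef, hs, if_true, lam, grp_K_col hj', w, div_pow]
      rw [Real.sq_sqrt (by positivity)]
      ring
    rw [Finset.sum_congr rfl h3, Finset.sum_const, Finset.card_range, nsmul_eq_mul]
    push_cast
    field_simp
  have hw0 : ∀ i, 0 ≤ w i := fun i => by positivity
  have hblock : ∀ b, ∑ i ∈ Finset.Ico (R b) (R (b + 1)), w i = ((b : ℝ) + 1) / H b := by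
    intro b
    have : ∀ i ∈ Finset.Ico (R b) (R (b + 1)), w i = amp i * (((b : ℝ) + 1) / H b) := by
      intro i hi
      simp only [w, amp, blk_eq hi]
      have := H_pos b
      field_simp
    rw [Finset.sum_congr rfl this, ← Finset.sum_mul, sum_amp, one_mul]
  have hgeo : Summable fun b : ℕ => ((b : ℝ) + 1) / 4 ^ b := by
    have h1 : Summable fun b : ℕ => (b : ℝ) ^ 1 * (1 / 4 : ℝ) ^ b :=
      summable_pow_mul_geometric_of_norm_lt_one 1 (by norm_num)
    have h2 : Summable fun b : ℕ => (1 / 4 : ℝ) ^ b :=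
      summable_geometric_of_lt_one (by norm_num) (by norm_num)
    refine (h1.add h2).congr fun b => ?_
    rw [one_div, inv_pow]
    field_simp
  have hw : Summable w := by
    refine summable_of_sum_range_le (c := ∑' b : ℕ, ((b : ℝ) + 1) / 4 ^ b) hw0 fun n => ?_
    have h1 : ∑ i ∈ Finset.range n, w i ≤ ∑ i ∈ Finset.range (R n), w i :=
      Finset.sum_le_sum_of_subset_of_nonneg
        (Finset.range_mono (R_strictMono.id_le n)) fun i _ _ => hw0 i
    have h2 : ∀ m, ∑ i ∈ Finset.range (R m), w i = ∑ b ∈ Finset.range m, ((b : ℝ) + 1) / H b := by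
      intro m
      induction m with
      | zero => simp [R]
      | succ m ih =>
        rw [Finset.sum_range_succ, ← ih, ← hblock, Finset.sum_range_add_sum_Ico _ (R_lt m).le]
    rw [h2] at h1
    refine h1.trans ?_
    calc ∑ b ∈ Finset.range n, ((b : ℝ) + 1) / H b
        ≤ ∑ b ∈ Finset.range n, ((b : ℝ) + 1) / 4 ^ b :=
          Finset.sum_le_sum fun b _ => div_le_div_of_nonneg_left (by positivity) (by positivity)
            (le_H b)
      _ ≤ _ := hgeo.sum_le_tsum _ fun b _ => by positivity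
  rw [summable_prod_of_nonneg]
  · refine ⟨fun i => (hrow i).summable, ?_⟩
    exact hw.congr fun i => (hrow i).tsum_eq.symm
  · intro q
    exact mul_nonneg (sq_nonneg _) (lam_pos _ _).le

/-! ### Divergence -/

/-- The partial row sums at a point of the strip `0 ≤ x < 1`. -/
lemma row_sum {x : ℝ} (h0 : 0 ≤ x) (h1 : x < 1) (y : ℝ) (i n : ℕ) :
    ∑ k ∈ Finset.range n, coef i k * phi i k (x, y) =
      if col i (lev i x).toNat < n then
        amp i * (if lev (i + 1) x = 2 * lev i x + 1 then 1 else -1) else 0 := by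
  classical
  set j := (lev i x).toNat with hj
  obtain ⟨hl0, hl1⟩ := lev_mul_lt (n := i) h0 h1
  have hjl : (j : ℤ) = lev i x := Int.toNat_of_nonneg hl0
  have hj2 : j < 2 ^ i := by
    have : (j : ℤ) < 2 ^ i := by rw [hjl]; exact hl1
    exact_mod_cast this
  have hterm : ∀ k ∈ Finset.range n, coef i k * phi i k (x, y) =
      if k = col i j then amp i * (if lev (i + 1) x = 2 * lev i x + 1 then 1 else -1) else 0 := by
    intro k _
    by_cases hs : IsSlot i k
    · obtain ⟨u, hu, rfl⟩ := hs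
      have hs : IsSlot i (col i u) := ⟨u, hu, rfl⟩
      rw [coef, if_pos hs, phi_slot hu]
      by_cases huj : u = j
      · subst huj
        rw [if_pos rfl]
        have h2 : lev i x = lev (i + 1) x / 2 := by
          rw [lev_div (Nat.le_succ i) x]; simp
        have hsq : √((2 : ℝ) ^ i) ≠ 0 := by positivity
        unfold haar
        simp only
        rw [hjl]
        split_ifs with h3 h4
        · field_simp
        · field_simp
        · omega
      · rw [if_neg (fun h => huj (col_injective h))]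
        have : haar i u x = 0 := by
          by_contra hne
          have := haar_ne_zero hne
          omega
        simp [this]
    · rw [coef, if_neg hs, zero_mul, if_neg]
      rintro rfl
      exact hs ⟨j, hj2, rfl⟩
  rw [Finset.sum_congr rfl hterm, Finset.sum_ite_eq']
  simp only [Finset.mem_range]

lemma diff_partialSum {x : ℝ} (h0 : 0 ≤ x) (h1 : x < 1) (y : ℝ) {b : ℕ} (hb : 1 ≤ b) (n : ℕ) :
    partialSum coef phi (R (b + 1) - 1) n (x, y) - partialSum coef phi (R b - 1) n (x, y) =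
      ∑ i ∈ Finset.Ico (R b) (R (b + 1)), if col i (lev i x).toNat < n + 1 then
        amp i * (if lev (i + 1) x = 2 * lev i x + 1 then 1 else -1) else 0 := by
  have hR : 1 ≤ R b := hb.trans (R_strictMono.id_le b)
  have hR' : 1 ≤ R (b + 1) := hR.trans (R_lt b).le
  unfold partialSum
  rw [Nat.sub_add_cancel hR, Nat.sub_add_cancel hR']
  simp only [row_sum h0 h1]
  rw [Finset.sum_Ico_eq_sub _ (R_lt b).le]

/-- comparison of the column of the Haar function living at `x` with the position of `x`. -/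
lemma col_le_iff {x : ℝ} (h0 : 0 ≤ x) (h1 : x < 1) {b i : ℕ}
    (hi : i ∈ Finset.Ico (R b) (R (b + 1))) :
    col i (lev i x).toNat < K b + (lev (R (b + 1)) x).toNat + 1 ↔
      lev (i + 1) x = 2 * lev i x + 1 := by
  have hblk := blk_eq hi
  rw [Finset.mem_Ico] at hi
  obtain ⟨hl0, hl1⟩ := lev_mul_lt (n := i) h0 h1
  obtain ⟨hm0, hm1⟩ := lev_mul_lt (n := R (b + 1)) h0 h1
  have h2 : lev i x = lev (i + 1) x / 2 := by
    rw [lev_div (Nat.le_succ i) x]; simp
  have h3 : lev (i + 1) x = lev (R (b + 1)) x / 2 ^ (R (b + 1) - (i + 1)) := lev_div hi.2 x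
  obtain ⟨j, hj⟩ := Int.eq_ofNat_of_zero_le hl0
  obtain ⟨M, hM⟩ := Int.eq_ofNat_of_zero_le hm0
  rw [col, hblk, hj, hM]
  simp only [Int.toNat_natCast]
  have h4 : lev (i + 1) x = ((M / 2 ^ (R (b + 1) - (i + 1)) : ℕ) : ℤ) := by
    rw [h3, hM]; push_cast; rfl
  have h5 : (2 * j + 1) * 2 ^ (R (b + 1) - (i + 1)) ≤ M ↔
      2 * j + 1 ≤ M / 2 ^ (R (b + 1) - (i + 1)) := (Nat.le_div_iff_mul_le (by positivity)).symm
  rw [h4] at h2 ⊢
  rw [hj] at h2
  constructor
  · intro h
    have h6 := h5.1 (by omega)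
    omega
  · intro h
    have h6 := h5.2 (by omega)
    omega

lemma not_tendsto {x : ℝ} (h0 : 0 ≤ x) (h1 : x < 1) (y : ℝ) :
    ¬ ∃ L : ℝ, Tendsto (fun q : ℕ × ℕ => partialSum coef phi q.1 q.2 (x, y))
      (atTop ×ˢ atTop) (𝓝 L) := by
  rintro ⟨L, hL⟩
  rw [Metric.tendsto_nhds] at hL
  have hev := hL (1 / 8) (by norm_num)
  rw [prod_atTop_atTop_eq, eventually_atTop] at hev
  obtain ⟨⟨N, N'⟩, hN⟩ := hev
  simp only [Prod.mk_le_mk, Prod.forall] at hN
  -- choose a late block
  set b := N + N' + 1 with hb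
  have hbR : b ≤ R b := R_strictMono.id_le b
  have hbK : b ≤ K b := K_strictMono.id_le b
  have hRb : N ≤ R b - 1 := by omega
  have hRb' : N ≤ R (b + 1) - 1 := by have := R_lt b; omega
  have hKb : N' ≤ K b := by omega
  have hb1 : 1 ≤ b := by omega
  set n1 := K b + (lev (R (b + 1)) x).toNat with hn1
  set n2 := K (b + 1) with hn2
  have hn1' : N' ≤ n1 := by omega
  have hn2' : N' ≤ n2 := hKb.trans (K_strictMono (Nat.lt_succ_self b)).le
  have a1 := hN _ n1 ⟨hRb, hn1'⟩
  have a2 := hN _ n1 ⟨hRb', hn1'⟩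
  have a3 := hN _ n2 ⟨hRb, hn2'⟩
  have a4 := hN _ n2 ⟨hRb', hn2'⟩
  rw [Real.dist_eq, abs_lt] at a1 a2 a3 a4
  have d1 := diff_partialSum h0 h1 y hb1 n1
  have d2 := diff_partialSum h0 h1 y hb1 n2
  set D : ℝ := ∑ i ∈ Finset.Ico (R b) (R (b + 1)),
    if lev (i + 1) x = 2 * lev i x + 1 then amp i else 0 with hD
  have e1 : ∑ i ∈ Finset.Ico (R b) (R (b + 1)), (if col i (lev i x).toNat < n1 + 1 then
        amp i * (if lev (i + 1) x = 2 * lev i x + 1 then (1 : ℝ) else -1) else 0) = D := by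
    refine Finset.sum_congr rfl fun i hi => ?_
    by_cases h : lev (i + 1) x = 2 * lev i x + 1
    · rw [if_pos ((col_le_iff h0 h1 hi).2 h), if_pos h, if_pos h, mul_one]
    · rw [if_neg (fun h' => h ((col_le_iff h0 h1 hi).1 h')), if_neg h]
  have e2 : ∑ i ∈ Finset.Ico (R b) (R (b + 1)), (if col i (lev i x).toNat < n2 + 1 then
        amp i * (if lev (i + 1) x = 2 * lev i x + 1 then (1 : ℝ) else -1) else 0) = 2 * D - 1 := by
    have h1' : 2 * D - 1 = 2 * D - ∑ i ∈ Finset.Ico (R b) (R (b + 1)), amp i := by rw [sum_amp b]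
    rw [h1', hD, Finset.mul_sum, ← Finset.sum_sub_distrib]
    refine Finset.sum_congr rfl fun i hi => ?_
    obtain ⟨hl0, hl1⟩ := lev_mul_lt (n := i) h0 h1
    have hj2 : (lev i x).toNat < 2 ^ i := by
      have : ((lev i x).toNat : ℤ) < 2 ^ i := by rw [Int.toNat_of_nonneg hl0]; exact hl1
      exact_mod_cast this
    have hlt : col i (lev i x).toNat < n2 + 1 := by
      have := col_lt hj2
      rw [blk_eq hi] at this
      omega
    rw [if_pos hlt]
    split_ifs <;> ring
  rw [e1] at d1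
  rw [e2] at d2
  linarith [a1.1, a1.2, a2.1, a2.2, a3.1, a3.2, a4.1, a4.2]

lemma ae_not_tendsto : ∀ᵐ p ∂squareMeasure, ¬ ∃ L : ℝ,
    Tendsto (fun q : ℕ × ℕ => partialSum coef phi q.1 q.2 p) (atTop ×ˢ atTop) (𝓝 L) := by
  have h1 : ∀ᵐ p ∂squareMeasure, p ∈ Icc (0 : ℝ) 1 ×ˢ Icc (0 : ℝ) 1 :=
    ae_restrict_mem (measurableSet_Icc.prod measurableSet_Icc)
  have h2 : ∀ᵐ p : ℝ × ℝ ∂squareMeasure, p.1 ≠ 1 := by
    rw [squareMeasure_eq]
    have : ∀ᵐ x ∂intervalMeasure, x ≠ 1 := by
      rw [intervalMeasure]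
      exact ae_restrict_of_ae (Measure.ae_ne volume 1)
    exact Measure.quasiMeasurePreserving_fst.ae this
  filter_upwards [h1, h2] with p hp hp1
  obtain ⟨x, y⟩ := p
  exact not_tendsto hp.1.1 (lt_of_le_of_ne hp.1.2 hp1) y

/-- **Main result** (disproof of Q1). There are weights `λ_{ik} > 0`, nondecreasing in each index,
tending to infinity (even along every single row and every single column), with nonnegative mixed
differences, a double orthonormal system on the unit square with growth `λ`, and coefficients with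
`∑ a_{ik}² λ_{ik} < ∞` whose double series fails to converge in Pringsheim's sense at almost every
point of the square. -/
theorem result :
    ∃ (lam : ℕ → ℕ → ℝ) (φ : ℕ → ℕ → ℝ × ℝ → ℝ) (a : ℕ → ℕ → ℝ),
      (∀ i k, 0 < lam i k) ∧
      (∀ i k, lam i k ≤ lam (i + 1) k) ∧
      (∀ i k, lam i k ≤ lam i (k + 1)) ∧
      (∀ i, Tendsto (fun k => lam i k) atTop atTop) ∧
      (∀ k, Tendsto (fun i => lam i k) atTop atTop) ∧
      Tendsto (fun q : ℕ × ℕ => lam q.1 q.2) (atTop ×ˢ atTop) atTop ∧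
      (∀ i k, 0 ≤ lam (i + 1) (k + 1) - lam (i + 1) k - lam i (k + 1) + lam i k) ∧
      IsDoubleONS φ ∧
      HasGrowth φ lam ∧
      Summable (fun q : ℕ × ℕ => a q.1 q.2 ^ 2 * lam q.1 q.2) ∧
      ∀ᵐ p ∂squareMeasure, ¬ ∃ L : ℝ,
        Tendsto (fun q : ℕ × ℕ => partialSum a φ q.1 q.2 p) (atTop ×ˢ atTop) (𝓝 L) := by
  refine ⟨lam, phi, coef, lam_pos, lam_mono_left, lam_mono_right, tendsto_lam_row,
    tendsto_lam_col, ?_, lam_delta, isDoubleONS_phi, hasGrowth_phi, summable_coef, ae_not_tendsto⟩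
  refine tendsto_atTop_mono (fun q => lam_ge q.1 q.2) ?_
  exact (tendsto_atTop_add_const_right _ _ tendsto_natCast_atTop_atTop).comp tendsto_fst

end Pool.Agent.Results.MP_8173ef_an.Main
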